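import Pool.Agent.W537.KT.Stm

/-!
# KT-ALT: the skew-symmetric matrices annihilate no antisymmetric form of degree `0 < j < m`
-/

namespace Pool.Agent.W352.KT

open Pool.Agent.W537.DB Pool.Agent.W537.KT Matrix

theorem t_ALT : S_ALT := by
  intro m j hj hjm f hf hx
  refine Module.Basis.ext_multilinear (fun _ => Pi.basisFun ℂ (Fin m)) ?_
  intro I
  simp only [Pi.basisFun_apply, _root_.zero_apply]
  by_cases hI : Function.Injective I
  · -- there is an index outside the range of `I`
    obtain ⟨c, hc⟩ : ∃ c : Fin m, ∀ k, I k ≠ c := by
      by_contra hcon
      push Not at hcon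
      have hs : Function.Surjective I := fun c => hcon c
      have := Fintype.card_le_of_surjective I hs
      simp at this
      omega
    set k0 : Fin j := ⟨0, hj⟩ with hk0
    set a : Fin m := I k0 with ha
    have hac : a ≠ c := hc k0
    set x : Matrix (Fin m) (Fin m) ℂ := Matrix.single a c 1 - Matrix.single c a 1 with hxdef
    have hskew : x.transpose = -x := by
      rw [hxdef, Matrix.transpose_sub, Matrix.transpose_single, Matrix.transpose_single]
      abel
    have h := hx x hskew (Function.update (fun k => Pi.single (I k) (1 : ℂ)) k0 (Pi.single c 1))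
    rw [Finset.sum_eq_single k0] at h
    · rw [Function.update_self, Function.update_idem] at h
      have hxc : x *ᵥ (Pi.single c (1 : ℂ)) = Pi.single a 1 := by
        rw [Matrix.mulVec_single_one]
        ext i
        simp only [hxdef, Matrix.col_apply, Matrix.sub_apply, Matrix.single_apply, Pi.single_apply]
        by_cases hia : a = i
        · subst hia
          simp [hac, hac.symm]
        · simp [hia, hac, Ne.symm hia]
      rw [hxc, ha] at h
      have : Function.update (fun k => Pi.single (I k) (1 : ℂ)) k0 (Pi.single (I k0) (1 : ℂ)) =
          fun k => (Pi.single (I k) (1 : ℂ) : Fin m → ℂ) := by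
        funext k
        by_cases hk : k = k0
        · subst hk; simp
        · simp [Function.update_of_ne hk]
      rw [this] at h
      exact h
    · intro k _ hk
      rw [Function.update_of_ne hk]
      have hIk : I k ≠ a := fun h => hk (hI h)
      have hIc : I k ≠ c := hc k
      have hz : x *ᵥ (Pi.single (I k) (1 : ℂ)) = 0 := by
        rw [Matrix.mulVec_single_one]
        ext i
        simp [hxdef, Ne.symm hIk, Ne.symm hIc]
      rw [hz]
      exact MultilinearMap.map_update_zero f _ k
    · intro h; exact absurd (Finset.mem_univ _) h
  · -- two equal indices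
    rw [Function.Injective] at hI
    push Not at hI
    obtain ⟨k, l, hkl, hne⟩ := hI
    have h := hf k l hne (fun k => Pi.single (I k) (1 : ℂ))
    have heq : (fun k' => (fun k => (Pi.single (I k) (1 : ℂ) : Fin m → ℂ)) (Equiv.swap k l k')) =
        fun k => (Pi.single (I k) (1 : ℂ) : Fin m → ℂ) := by
      funext k'
      have : I (Equiv.swap k l k') = I k' := by
        by_cases h1 : k' = k
        · rw [h1, Equiv.swap_apply_left, hkl]
        · by_cases h2 : k' = l
          · rw [h2, Equiv.swap_apply_right, hkl]
          · rw [Equiv.swap_apply_of_ne_of_ne h1 h2]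
      simp only [this]
    rw [heq] at h
    have h2 : (2 : ℂ) * f (fun k => Pi.single (I k) (1 : ℂ)) = 0 := by
      linear_combination h
    simpa using h2

end Pool.Agent.W352.KT
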